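import Pool.Agent.helper74.Lam.Ess

set_option autoImplicit false

/-!
# MP_7678b4_lc : the exact value of the game on laminar graphs

A graph with a perfect matching is laminar if, for `i < j`, the set of those neighbours of `u_j` whose partner has not
arrived before `u_j` is contained in the neighbourhood of `u_i` or disjoint from it; the monotone graph is laminar. On
the class of laminar graphs the value of the game is exactly the value of Ranking against `D_n`, and Ranking attains it.
-/

namespace Pool.Agent.Results.MP_7678b4_lc.LaminarGraphs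

/-- The size of the matching found on the instance `N` by the greedy algorithm with the order `τ`. -/
def orderGreedy {n : ℕ} (N : Fin n → Finset (Fin n)) (τ : Equiv.Perm (Fin n)) : ℕ :=
  ((List.finRange n).foldl
    (fun (M : Finset (Fin n)) (i : Fin n) =>
      M ∪ ((N i \ M).filter (fun v => ∀ w ∈ N i \ M, τ v ≤ τ w)))
    (∅ : Finset (Fin n))).card

/-- The expected size of the matching found by Ranking on the instance `N`. -/
noncomputable def ranking {n : ℕ} (N : Fin n → Finset (Fin n)) : ℝ :=
  (∑ τ : Equiv.Perm (Fin n), (orderGreedy N τ : ℝ)) / (n.factorial : ℝ)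

/-- The monotone (upper triangular) graph. -/
def upper (n : ℕ) : Fin n → Finset (Fin n) := fun i => Finset.univ.filter (fun j : Fin n => i ≤ j)

/-- The expected size of the matching found by Ranking against `D_n`. -/
noncomputable def rankingD (n : ℕ) : ℝ :=
  (∑ π : Equiv.Perm (Fin n), ∑ τ : Equiv.Perm (Fin n),
    (orderGreedy (fun i => (upper n i).image π) τ : ℝ)) / ((n.factorial : ℝ) * (n.factorial : ℝ))

/-- The size of the matching found on the instance `N` by the deterministic online algorithm `A`, which chooses a
vertex for `u_i` (or nothing) as a function of the neighbourhoods of `u_1, …, u_i`. -/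
def onlineSize {n : ℕ} (A : Fin n → (Fin n → Finset (Fin n)) → Option (Fin n)) (N : Fin n → Finset (Fin n)) : ℕ :=
  ((List.finRange n).foldl
    (fun (M : Finset (Fin n)) (i : Fin n) =>
      (A i (fun j => if j ≤ i then N j else ∅)).elim M
        (fun v => if v ∈ N i ∧ v ∉ M then insert v M else M))
    (∅ : Finset (Fin n))).card

/-- Laminar graphs: there is a perfect matching `σ` such that for `i < j` the set of the neighbours of `u_j` which are
not the partners of `u_l`, `l < j`, is contained in the neighbourhood of `u_i` or disjoint from it. -/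
def Laminar {n : ℕ} (N : Fin n → Finset (Fin n)) : Prop :=
  ∃ σ : Equiv.Perm (Fin n), (∀ i, σ i ∈ N i) ∧ ∀ i j : Fin n, i < j →
    N j \ (Finset.univ.filter (fun l : Fin n => l < j)).image σ ⊆ N i ∨
      Disjoint (N j \ (Finset.univ.filter (fun l : Fin n => l < j)).image σ) (N i)

/-- On laminar graphs Ranking finds at least `ρ_n(Ranking, D_n)` edges, and no randomized online algorithm does
better on all of them. -/
theorem result : ∀ n : ℕ,
    (∀ N : Fin n → Finset (Fin n), Laminar N → rankingD n ≤ ranking N) ∧
    (∀ p : (Fin n → (Fin n → Finset (Fin n)) → Option (Fin n)) → ℝ, (∀ A, 0 ≤ p A) → ∑ A, p A = 1 →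
      ∃ N : Fin n → Finset (Fin n), Laminar N ∧ ∑ A, p A * (onlineSize A N : ℝ) ≤ rankingD n) := by
  intro n
  have hg : ∀ (N : Fin n → Finset (Fin n)) (τ : Equiv.Perm (Fin n)),
      orderGreedy N τ = (Pool.Agent.helper74.Lam.Ms N τ n).card := by
    intro N τ
    rw [← Pool.Agent.helper74.Lam.foldl_eq]
    rfl
  have hD : rankingD n = Pool.Agent.helper74.Lam.upVal n := by
    rw [← Pool.Agent.helper74.Lam.double]
    unfold rankingD
    simp only [hg]
    rfl
  refine ⟨fun N hN => ?_, fun p hp h1 => ?_⟩
  · rw [hD]
    unfold Pool.Agent.helper74.Lam.upVal ranking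
    apply div_le_div_of_nonneg_right _ (by positivity)
    simp only [hg]
    obtain ⟨σ, h1, h2⟩ := hN
    exact Pool.Agent.helper74.Lam.ess_laminar_ge N σ h1 h2
  · obtain ⟨π, hπ⟩ := Pool.Agent.helper74.Lam.mix_exists p hp h1
    refine ⟨fun i => (upper n i).image π, ⟨π, fun i => Pool.Agent.helper74.Lam.up_match π i, fun i j hij =>
      Or.inl (Finset.sdiff_subset.trans (Pool.Agent.helper74.Lam.up_laminar π i j hij))⟩, ?_⟩
    rw [hD]
    exact hπ

end Pool.Agent.Results.MP_7678b4_lc.LaminarGraphs
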