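import Pool.Agent.helper65.RK.AsmF

set_option autoImplicit false

/-!
# MP_7678b4_lc : the upper triangular distribution is not the worst input for Ranking

`orderGreedy N τ` is the size of the matching found on the instance `N` (the vertex `u_i` arrives at time `i` with the
neighbourhood `N i`) by the algorithm that matches every arriving vertex to its free neighbour which is the first one in
the order `τ`. `rankingD n` is the value of Ranking against the distribution `D_n`, written as in the frozen statement.
-/

namespace Pool.Agent.Results.MP_7678b4_lc.RankingBelowMonotone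

/-- The size of the matching found on the instance `N` by the greedy algorithm with the order `τ`. -/
def orderGreedy {n : ℕ} (N : Fin n → Finset (Fin n)) (τ : Equiv.Perm (Fin n)) : ℕ :=
  ((List.finRange n).foldl
    (fun (M : Finset (Fin n)) (i : Fin n) =>
      M ∪ ((N i \ M).filter (fun v => ∀ w ∈ N i \ M, τ v ≤ τ w)))
    (∅ : Finset (Fin n))).card

/-- The monotone (upper triangular) graph. -/
def upper (n : ℕ) : Fin n → Finset (Fin n) := fun i => Finset.univ.filter (fun j : Fin n => i ≤ j)

/-- The expected size of the matching found by Ranking against `D_n`. -/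
noncomputable def rankingD (n : ℕ) : ℝ :=
  (∑ π : Equiv.Perm (Fin n), ∑ τ : Equiv.Perm (Fin n),
    (orderGreedy (fun i => (upper n i).image π) τ : ℝ)) / ((n.factorial : ℝ) * (n.factorial : ℝ))

/-- For all large `n` there is a graph with a perfect matching such that every greedy algorithm with a random order
finds, on average over the renamings of this graph, fewer edges than Ranking against `D_n`. -/
theorem result : ∃ n₀ : ℕ, ∀ n ≥ n₀, ∃ N : Fin n → Finset (Fin n),
    (∃ σ : Equiv.Perm (Fin n), ∀ i, σ i ∈ N i) ∧
      ∀ p : Equiv.Perm (Fin n) → ℝ, (∀ τ, 0 ≤ p τ) → ∑ τ, p τ = 1 →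
        (∑ π : Equiv.Perm (Fin n), ∑ τ : Equiv.Perm (Fin n),
          p τ * (orderGreedy (fun i => (N i).image π) τ : ℝ)) / (n.factorial : ℝ) <
          rankingD n := by
  obtain ⟨n₀, h⟩ := Pool.Agent.helper65.RK.worse
  refine ⟨n₀, fun n hn => ?_⟩
  obtain ⟨N, h1, h2⟩ := h n hn
  exact ⟨N, h1, fun p _ hp => h2 p hp⟩

end Pool.Agent.Results.MP_7678b4_lc.RankingBelowMonotone
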