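import Pool.Agent.helper74.Lam.Fin

set_option autoImplicit false

/-!
# MP_7678b4_lc : `D_n` is the hardest distribution among the random renamings of one graph

For a graph `G` let `D_G` be the distribution obtained by renaming the vertices of `V` with a uniformly random
permutation, so that `D_n` is `D_G` for the monotone graph. For every `G` in `𝒢_n` there is a randomized online
algorithm which finds at least `ρ_n(Ranking, D_n)` edges on every renaming of `G`, and for the monotone graph no
algorithm finds more on average.
-/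

namespace Pool.Agent.Results.MP_7678b4_lc.RenamingsOfOneGraph

/-- The size of the matching found on the instance `N` by the greedy algorithm with the order `τ`. -/
def orderGreedy {n : ℕ} (N : Fin n → Finset (Fin n)) (τ : Equiv.Perm (Fin n)) : ℕ :=
  ((List.finRange n).foldl
    (fun (M : Finset (Fin n)) (i : Fin n) =>
      M ∪ ((N i \ M).filter (fun v => ∀ w ∈ N i \ M, τ v ≤ τ w)))
    (∅ : Finset (Fin n))).card

/-- The monotone (upper triangular) graph. -/
def upper (n : ℕ) : Fin n → Finset (Fin n) := fun i => Finset.univ.filter (fun j : Fin n => i ≤ j)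

/-- The expected size of the matching found by Ranking against `D_n`. -/
noncomputable def rankingD (n : ℕ) : ℝ :=
  (∑ π : Equiv.Perm (Fin n), ∑ τ : Equiv.Perm (Fin n),
    (orderGreedy (fun i => (upper n i).image π) τ : ℝ)) / ((n.factorial : ℝ) * (n.factorial : ℝ))

/-- The size of the matching found on the instance `N` by the deterministic online algorithm `A`, which chooses a
vertex for `u_i` (or nothing) as a function of the neighbourhoods of `u_1, …, u_i`. -/
def onlineSize {n : ℕ} (A : Fin n → (Fin n → Finset (Fin n)) → Option (Fin n)) (N : Fin n → Finset (Fin n)) : ℕ :=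
  ((List.finRange n).foldl
    (fun (M : Finset (Fin n)) (i : Fin n) =>
      (A i (fun j => if j ≤ i then N j else ∅)).elim M
        (fun v => if v ∈ N i ∧ v ∉ M then insert v M else M))
    (∅ : Finset (Fin n))).card

/-- The expected size of the matching found on `N` by the randomized online algorithm `p`. -/
noncomputable def rho {n : ℕ} (p : (Fin n → (Fin n → Finset (Fin n)) → Option (Fin n)) → ℝ)
    (N : Fin n → Finset (Fin n)) : ℝ := ∑ A, p A * (onlineSize A N : ℝ)

/-- The least value of `ρ_n(−, D_G)` over the graphs `G` with a perfect matching is `ρ_n(Ranking, D_n)`, attained by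
the monotone graph. -/
theorem result : ∀ n : ℕ,
    (∀ N : Fin n → Finset (Fin n), (∃ σ : Equiv.Perm (Fin n), ∀ i, σ i ∈ N i) →
      ∃ p : (Fin n → (Fin n → Finset (Fin n)) → Option (Fin n)) → ℝ, (∀ A, 0 ≤ p A) ∧ ∑ A, p A = 1 ∧
        ∀ π : Equiv.Perm (Fin n), rankingD n ≤ rho p (fun i => (N i).image π)) ∧
    (∀ p : (Fin n → (Fin n → Finset (Fin n)) → Option (Fin n)) → ℝ, (∀ A, 0 ≤ p A) → ∑ A, p A = 1 →
      (∑ π : Equiv.Perm (Fin n), rho p (fun i => (upper n i).image π)) / (n.factorial : ℝ) ≤ rankingD n) := by
  intro n
  have hg : ∀ (N : Fin n → Finset (Fin n)) (τ : Equiv.Perm (Fin n)),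
      orderGreedy N τ = (Pool.Agent.helper74.Lam.Ms N τ n).card := by
    intro N τ
    rw [← Pool.Agent.helper74.Lam.foldl_eq]
    rfl
  have hD : rankingD n = Pool.Agent.helper74.Lam.upVal n := by
    rw [← Pool.Agent.helper74.Lam.double]
    unfold rankingD
    simp only [hg]
    rfl
  refine ⟨fun N hN => ?_, fun p hp h1 => ?_⟩
  · obtain ⟨σ, hσ⟩ := hN
    have h := Pool.Agent.helper74.Lam.sel (Pool.Agent.helper74.Lam.hist N σ)
    refine ⟨_, h.1, h.2.1, fun π => ?_⟩
    rw [hD]
    exact Pool.Agent.helper74.Lam.every N σ hσ π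
  · rw [hD]
    exact Pool.Agent.helper74.Lam.mix_le p hp h1

end Pool.Agent.Results.MP_7678b4_lc.RenamingsOfOneGraph
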